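import Pool.Agent.Helper40.Lin.Defs
import Pool.Agent.Helper26.Lin.PT

open MeasureTheory Filter Topology
open scoped LinearAlgebra.Projectivization Matrix

namespace Pool.Agent.Helper11.Lin

open Pool.Agent.Helper40.Lin

theorem furst_mnorm_nonneg {k : Type*} [NormedField k] {m : ℕ} (M : Matrix (Fin m) (Fin m) k) :
    0 ≤ mnorm M :=
  Finset.sum_nonneg fun _ _ => Finset.sum_nonneg fun _ _ => norm_nonneg _

theorem furst_mnorm_smul {k : Type*} [NormedField k] {m : ℕ} (c : k)
    (M : Matrix (Fin m) (Fin m) k) : mnorm (c • M) = ‖c‖ * mnorm M := by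
  simp [mnorm, Finset.mul_sum]

theorem furst_entry_le {k : Type*} [NormedField k] {m : ℕ} (M : Matrix (Fin m) (Fin m) k)
    (i j : Fin m) : ‖M i j‖ ≤ mnorm M := by
  have h1 : ‖M i j‖ ≤ ∑ j, ‖M i j‖ :=
    Finset.single_le_sum (f := fun j => ‖M i j‖) (fun _ _ => norm_nonneg _) (Finset.mem_univ j)
  have h2 : ∑ j, ‖M i j‖ ≤ mnorm M :=
    Finset.single_le_sum (f := fun i => ∑ j, ‖M i j‖)
      (fun _ _ => Finset.sum_nonneg fun _ _ => norm_nonneg _) (Finset.mem_univ i)
  exact h1.trans h2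

theorem furst_mnorm_cont {k : Type*} [NormedField k] {m : ℕ} :
    Continuous (mnorm : Matrix (Fin m) (Fin m) k → ℝ) := by
  unfold mnorm
  exact continuous_finsetSum _ fun i _ => continuous_finsetSum _ fun j _ =>
    (continuous_id.matrix_elem i j).norm

/-- A rescaled subsequence of the powers converges to a singular nonzero matrix. -/
theorem furst_limit {k : Type*} [NontriviallyNormedField k] [ProperSpace k] (m : ℕ)
    (t : GL (Fin m) k) (ht : Unb t) : ∃ (n : ℕ → ℕ) (c : ℕ → k) (τ : Matrix (Fin m) (Fin m) k),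
      (∀ j, c j ≠ 0) ∧ Tendsto (fun j => c j • (t ^ n j : GL (Fin m) k).1) atTop (𝓝 τ) ∧
      τ ≠ 0 ∧ τ.det = 0 := by
  obtain ⟨c0, hc0⟩ := NormedField.exists_one_lt_norm k
  have hc0' : c0 ≠ 0 := norm_pos_iff.1 (by linarith)
  choose n hn using fun j : ℕ => ht j
  have hpos : ∀ j, 0 < mnorm (t ^ n j : GL (Fin m) k).1 := by
    intro j
    rcases (furst_mnorm_nonneg (t ^ n j : GL (Fin m) k).1).lt_or_eq with h | h
    · exact h
    · exfalso
      have h1 := hn j
      rw [← h, zero_mul] at h1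
      have h2 : (0 : ℝ) ≤ j := Nat.cast_nonneg j
      linarith
  choose l hl using fun j => exists_mem_Ico_zpow (hpos j) hc0
  have hcn : ∀ j, ‖(c0 ^ l j)⁻¹‖ = (‖c0‖ ^ l j)⁻¹ := by
    intro j
    rw [norm_inv, norm_zpow]
  have hzp : ∀ j, 0 < ‖c0‖ ^ l j := fun j => zpow_pos (by linarith) _
  let A : ℕ → Matrix (Fin m) (Fin m) k := fun j => (c0 ^ l j)⁻¹ • (t ^ n j : GL (Fin m) k).1
  have hA : ∀ j, mnorm (A j) = (‖c0‖ ^ l j)⁻¹ * mnorm (t ^ n j : GL (Fin m) k).1 := by
    intro j
    rw [← hcn]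
    exact furst_mnorm_smul _ _
  have hA1 : ∀ j, 1 ≤ mnorm (A j) := by
    intro j
    rw [hA, ← div_eq_inv_mul, le_div_iff₀ (hzp j), one_mul]
    exact (hl j).1
  have hA2 : ∀ j, mnorm (A j) ≤ ‖c0‖ := by
    intro j
    rw [hA, ← div_eq_inv_mul, div_le_iff₀ (hzp j)]
    have h1 := (hl j).2
    rw [zpow_add_one₀ (by linarith)] at h1
    linarith
  let A' : ℕ → (Fin m → Fin m → k) := A
  have hA3 : ∀ j, A' j ∈ Metric.closedBall (0 : Fin m → Fin m → k) ‖c0‖ := by
    intro j
    rw [mem_closedBall_zero_iff]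
    rw [pi_norm_le_iff_of_nonneg (norm_nonneg _)]
    intro i
    rw [pi_norm_le_iff_of_nonneg (norm_nonneg _)]
    intro i'
    exact (furst_entry_le (A j) i i').trans (hA2 j)
  obtain ⟨τ', _, φ, hφ, hlim⟩ := (isCompact_closedBall (0 : Fin m → Fin m → k) ‖c0‖).tendsto_subseq hA3
  let τ : Matrix (Fin m) (Fin m) k := τ'
  have hlim' : Tendsto (fun j => A (φ j)) atTop (𝓝 τ) := hlim
  refine ⟨fun j => n (φ j), fun j => (c0 ^ l (φ j))⁻¹, τ, fun j => inv_ne_zero (zpow_ne_zero _ hc0'),
    hlim', ?_, ?_⟩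
  · intro h0
    have h1 : Tendsto (fun j => mnorm (A (φ j))) atTop (𝓝 (mnorm τ)) :=
      (furst_mnorm_cont.tendsto τ).comp hlim'
    have h2 : 1 ≤ mnorm τ := ge_of_tendsto h1 (Eventually.of_forall fun j => hA1 (φ j))
    rw [h0] at h2
    simp [mnorm] at h2
    linarith
  · by_contra hdet
    have h1 : Tendsto (fun j => ‖(A (φ j)).det‖) atTop (𝓝 ‖τ.det‖) :=
      ((continuous_id.matrix_det.norm).tendsto τ).comp hlim'
    have h2 : Tendsto (fun j => mnorm (A (φ j)).adjugate) atTop (𝓝 (mnorm τ.adjugate)) :=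
      ((furst_mnorm_cont.comp continuous_id.matrix_adjugate).tendsto τ).comp hlim'
    have h3 : Tendsto (fun j => ((φ j : ℕ) : ℝ) / ‖c0‖) atTop atTop :=
      (tendsto_natCast_atTop_atTop.comp hφ.tendsto_atTop).atTop_div_const (by linarith)
    have h4 := h1.pos_mul_atTop (norm_pos_iff.2 hdet) h3
    refine not_tendsto_atTop_of_tendsto_nhds h2 (tendsto_atTop_mono (fun j => ?_) h4)
    set i := φ j
    have h5 : (A i).adjugate = (A i).det • ((c0 ^ l i) • ((t ^ n i)⁻¹ : GL (Fin m) k).1) := by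
      have h6 : ((c0 ^ l i) • ((t ^ n i)⁻¹ : GL (Fin m) k).1) * A i = 1 := by
        simp only [A]
        rw [Matrix.smul_mul, Matrix.mul_smul, smul_smul, mul_inv_cancel₀ (zpow_ne_zero _ hc0'),
          one_smul]
        exact Units.inv_mul _
      calc (A i).adjugate = ((c0 ^ l i) • ((t ^ n i)⁻¹ : GL (Fin m) k).1) * A i * (A i).adjugate := by
            rw [h6, one_mul]
        _ = ((c0 ^ l i) • ((t ^ n i)⁻¹ : GL (Fin m) k).1) * ((A i).det • 1) := by
            rw [mul_assoc, Matrix.mul_adjugate]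
        _ = _ := by rw [Matrix.mul_smul, mul_one]
    rw [h5, furst_mnorm_smul, furst_mnorm_smul, norm_zpow]
    refine mul_le_mul_of_nonneg_left ?_ (norm_nonneg _)
    rw [div_le_iff₀ (by linarith)]
    have h7 := (hl i).2
    rw [zpow_add_one₀ (by linarith)] at h7
    have h8 := hn i
    have h9 := furst_mnorm_nonneg ((t ^ n i)⁻¹ : GL (Fin m) k).1
    have h10 := mul_le_mul_of_nonneg_right h7.le h9
    calc ((i : ℕ) : ℝ) ≤ mnorm (t ^ n i : GL (Fin m) k).1 * mnorm ((t ^ n i)⁻¹ : GL (Fin m) k).1 := h8.le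
      _ ≤ ‖c0‖ ^ l i * ‖c0‖ * mnorm ((t ^ n i)⁻¹ : GL (Fin m) k).1 := h10
      _ = _ := by ring

theorem furst_core {k : Type*} [NontriviallyNormedField k] [ProperSpace k] (m : ℕ)
    (PT3 : ∀ g : GL (Fin m) k, Continuous (act g : PS k m → PS k m))
    (PT4 : ∀ (g h : GL (Fin m) k) (x : PS k m),
      act (g * h) x = act g (act h x) ∧ act (1 : GL (Fin m) k) x = x)
    (PT6 : ∀ ψ : (Fin m → k) →ₗ[k] k, ∃ φ : PS k m → ℝ, Continuous φ ∧
      ∀ (v : Fin m → k) (hv : v ≠ 0),
      φ (Projectivization.mk k v hv : ℙ k (Fin m → k)) = ‖ψ v‖ / ‖v‖)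
    (PT7 : ∀ (g : GL (Fin m) k) (F : Submodule k (Fin m → k)),
      act g ⁻¹' (PF F : Set (PS k m)) = PF (F.comap (Matrix.mulVecLin g.1)))
    (t : GL (Fin m) k)
    (ht : Unb t) (μ : Measure (PS k m)) [IsFiniteMeasure μ] (hμ : Measure.map (act t) μ = μ)
    (S : Set (PS k m)) (hS : MeasurableSet S) (hpos : μ S ≠ 0)
    (hnull : ∀ F : Submodule k (Fin m → k), F ≠ ⊤ → μ (S ∩ PF F) = 0) : False := by
  classical
  -- invariance under all powers
  have mp1 : MeasurePreserving (act t) μ μ := ⟨(PT3 t).measurable, hμ⟩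
  have mpn : ∀ j : ℕ, MeasurePreserving (act (t ^ j)) μ μ := by
    intro j
    induction j with
    | zero =>
      have h1 : (act (t ^ 0) : PS k m → PS k m) = id := by
        funext x
        rw [pow_zero]
        exact (PT4 1 1 x).2
      rw [h1]
      exact MeasurePreserving.id μ
    | succ j ih =>
      have h1 : (act (t ^ (j + 1)) : PS k m → PS k m) = act (t ^ j) ∘ act t := by
        funext x
        rw [pow_succ]
        exact (PT4 _ _ x).1
      rw [h1]
      exact ih.comp mp1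
  have mpz : ∀ j : ℤ, MeasurePreserving (act (t ^ j)) μ μ := by
    intro j
    obtain ⟨i, rfl | rfl⟩ := j.eq_nat_or_neg
    · rw [zpow_natCast]
      exact mpn i
    · refine ⟨(PT3 _).measurable, ?_⟩
      have h1 := (mpn i).map_eq
      conv_lhs => rw [← h1]
      rw [Measure.map_map (PT3 _).measurable (PT3 _).measurable]
      have h2 : (act (t ^ (-(i : ℤ))) ∘ act (t ^ i) : PS k m → PS k m) = id := by
        funext x
        have := (PT4 (t ^ (-(i : ℤ))) (t ^ i) x).1
        rw [Function.comp_apply, ← this, zpow_neg, zpow_natCast, inv_mul_cancel]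
        exact (PT4 1 1 x).2
      rw [h2, Measure.map_id]
  -- the invariant set
  let Si : Set (PS k m) := ⋃ j : ℤ, act (t ^ j) ⁻¹' S
  have hSi : MeasurableSet Si := MeasurableSet.iUnion fun j => (mpz j).measurable hS
  have hinv : ∀ i : ℤ, act (t ^ i) ⁻¹' Si = Si := by
    intro i
    ext x
    simp only [Si, Set.preimage_iUnion, Set.mem_iUnion, Set.mem_preimage]
    constructor
    · rintro ⟨j, hj⟩
      refine ⟨j + i, ?_⟩
      rw [zpow_add, (PT4 _ _ x).1]
      exact hj
    · rintro ⟨j, hj⟩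
      refine ⟨j - i, ?_⟩
      rw [← (PT4 _ _ x).1, ← zpow_add, sub_add_cancel]
      exact hj
  let ν : Measure (PS k m) := μ.restrict Si
  have hνp : ∀ j : ℤ, MeasurePreserving (act (t ^ j)) ν ν := by
    intro j
    have h1 := (mpz j).restrict_preimage hSi
    rw [hinv j] at h1
    exact h1
  have hν0 : ν Set.univ ≠ 0 := by
    intro h
    apply hpos
    have h1 : μ Si = 0 := by
      rw [← Measure.restrict_apply_univ]
      exact h
    refine measure_mono_null ?_ h1
    intro x hx
    refine Set.mem_iUnion.2 ⟨0, ?_⟩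
    rw [Set.mem_preimage, zpow_zero, (PT4 1 1 x).2]
    exact hx
  have hnull' : ∀ F : Submodule k (Fin m → k), F ≠ ⊤ → ν (PF F) = 0 := by
    intro F hF
    rw [Measure.restrict_apply' hSi]
    have h1 : (PF F ∩ Si : Set (PS k m)) ⊆ ⋃ j : ℤ, act (t ^ j) ⁻¹'
        (S ∩ PF (F.comap (Matrix.mulVecLin (t ^ (-j) : GL (Fin m) k).1))) := by
      rintro x ⟨hx1, hx2⟩
      obtain ⟨j, hj⟩ := Set.mem_iUnion.1 hx2
      refine Set.mem_iUnion.2 ⟨j, hj, ?_⟩
      have h2 : x ∈ act (t ^ j) ⁻¹' (PF (F.comap (Matrix.mulVecLin (t ^ (-j) : GL (Fin m) k).1)) :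
          Set (PS k m)) := by
        rw [PT7]
        have h3 : (F.comap (Matrix.mulVecLin (t ^ (-j) : GL (Fin m) k).1)).comap
            (Matrix.mulVecLin (t ^ j : GL (Fin m) k).1) = F := by
          rw [← Submodule.comap_comp, ← Matrix.mulVecLin_mul, ← Units.val_mul, ← zpow_add,
            neg_add_cancel, zpow_zero, Units.val_one, Matrix.mulVecLin_one, Submodule.comap_id]
        rw [h3]
        exact hx1
      exact h2
    refine measure_mono_null h1 (measure_iUnion_null fun j => ?_)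
    apply (mpz j).quasiMeasurePreserving.preimage_null
    apply hnull
    intro h
    apply hF
    rw [eq_top_iff]
    intro v _
    have h2 : (t ^ j : GL (Fin m) k).1.mulVec v ∈
        F.comap (Matrix.mulVecLin (t ^ (-j) : GL (Fin m) k).1) := by
      rw [h]
      trivial
    rw [Submodule.mem_comap, Matrix.mulVecLin_apply, Matrix.mulVec_mulVec, ← Units.val_mul,
      ← zpow_add, neg_add_cancel, zpow_zero, Units.val_one, Matrix.one_mulVec] at h2
    exact h2
  -- the limit
  obtain ⟨n, c, τ, hc, hlim, hτ0, hτd⟩ := furst_limit m t ht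
  obtain ⟨w, hw0, hw⟩ := Matrix.exists_vecMul_eq_zero_iff.2 hτd
  let ψ : (Fin m → k) →ₗ[k] k := ∑ i, w i • LinearMap.proj i
  have hψ : ∀ v, ψ v = ∑ i, w i * v i := by
    intro v
    simp [ψ, LinearMap.sum_apply]
  obtain ⟨φ, hφc, hφ⟩ := PT6 ψ
  have hψc : Continuous fun v : Fin m → k => ψ v := by
    simp only [hψ]
    exact continuous_finsetSum _ fun i _ => continuous_const.mul (continuous_apply i)
  have hψτ : ∀ v, ψ (τ.mulVec v) = 0 := by
    intro v
    rw [hψ]
    have h1 : ∑ i, w i * (τ.mulVec v) i = w ⬝ᵥ τ.mulVec v := rfl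
    rw [h1, Matrix.dotProduct_mulVec, hw, zero_dotProduct]
  have hφ0 : ∀ x, 0 ≤ φ x := by
    intro x
    induction x using Projectivization.ind with
    | h v hv =>
      rw [hφ v hv]
      positivity
  have hφb : ∀ x, φ x ≤ ∑ i, ‖w i‖ := by
    intro x
    induction x using Projectivization.ind with
    | h v hv =>
      rw [hφ v hv, div_le_iff₀ (norm_pos_iff.2 hv), hψ, Finset.sum_mul]
      refine (norm_sum_le _ _).trans (Finset.sum_le_sum fun i _ => ?_)
      rw [norm_mul]
      exact mul_le_mul_of_nonneg_left (norm_le_pi_norm v i) (norm_nonneg _)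
  have hker : LinearMap.ker (Matrix.mulVecLin τ) ≠ ⊤ := by
    intro h
    apply hτ0
    rw [LinearMap.ker_eq_top] at h
    have h1 : Matrix.mulVecLin τ = Matrix.mulVecLin 0 := by rw [h, Matrix.mulVecLin_zero]
    exact Matrix.ext fun i j => by
      have h2 := congrFun (LinearMap.congr_fun h1 (Pi.single j 1)) i
      simpa using h2
  have hae : ∀ᵐ x ∂ν, Tendsto (fun j => φ (act (t ^ (n j : ℤ)) x)) atTop (𝓝 0) := by
    have h1 := hnull' _ hker
    rw [measure_eq_zero_iff_ae_notMem] at h1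
    filter_upwards [h1] with x hx
    induction x using Projectivization.ind with
    | h v hv =>
      have h2 : τ.mulVec v ≠ 0 := by
        intro h
        apply hx
        change Projectivization.submodule (Projectivization.mk k v hv) ≤ _
        rw [Projectivization.submodule_mk, Submodule.span_singleton_le_iff_mem]
        exact h
      have h3 : Tendsto (fun j => (c j • (t ^ n j : GL (Fin m) k).1).mulVec v) atTop
          (𝓝 (τ.mulVec v)) :=
        ((Continuous.matrix_mulVec continuous_id continuous_const).tendsto τ).comp hlim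
      have h4 : Tendsto (fun j => ‖ψ ((c j • (t ^ n j : GL (Fin m) k).1).mulVec v)‖ /
          ‖(c j • (t ^ n j : GL (Fin m) k).1).mulVec v‖) atTop (𝓝 (‖ψ (τ.mulVec v)‖ / ‖τ.mulVec v‖)) :=
        ((hψc.norm.tendsto _).comp h3).div h3.norm (norm_ne_zero_iff.2 h2)
      rw [hψτ, norm_zero, zero_div] at h4
      refine h4.congr fun j => ?_
      have h5 : (t ^ n j : GL (Fin m) k).1.mulVec v ≠ 0 := by
        intro h
        apply hv
        have := congrArg (Matrix.mulVec (t ^ n j : GL (Fin m) k)⁻¹.1) h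
        rwa [Matrix.mulVec_mulVec, Units.inv_mul, Matrix.one_mulVec, Matrix.mulVec_zero] at this
      rw [zpow_natCast]
      have h6 : act (t ^ n j) (Projectivization.mk k v hv : ℙ k (Fin m → k)) =
          (Projectivization.mk k ((t ^ n j : GL (Fin m) k).1.mulVec v) h5 : ℙ k (Fin m → k)) := rfl
      rw [h6, hφ, Matrix.smul_mulVec, map_smul, norm_smul, norm_smul,
        mul_div_mul_left _ _ (norm_ne_zero_iff.2 (hc j))]
  have hint : Tendsto (fun j => ∫ x, φ (act (t ^ (n j : ℤ)) x) ∂ν) atTop (𝓝 (∫ _, (0 : ℝ) ∂ν)) := by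
    refine tendsto_integral_of_dominated_convergence (fun _ => ∑ i, ‖w i‖) ?_ ?_ ?_ hae
    · intro j
      exact (hφc.comp (PT3 _)).measurable.aestronglyMeasurable
    · exact integrable_const _
    · intro j
      refine Eventually.of_forall fun x => ?_
      rw [Real.norm_of_nonneg (hφ0 _)]
      exact hφb _
  have hint' : ∀ j, ∫ x, φ (act (t ^ (n j : ℤ)) x) ∂ν = ∫ x, φ x ∂ν := by
    intro j
    have h1 := (hνp (n j : ℤ)).map_eq
    conv_rhs => rw [← h1]
    rw [integral_map (hνp _).measurable.aemeasurable hφc.measurable.aestronglyMeasurable]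
  simp only [hint', integral_zero] at hint
  have h0 : ∫ x, φ x ∂ν = 0 := tendsto_nhds_unique tendsto_const_nhds hint
  have hφi : Integrable φ ν := by
    refine (integrable_const (∑ i, ‖w i‖)).mono' hφc.measurable.aestronglyMeasurable
      (Eventually.of_forall fun x => ?_)
    rw [Real.norm_of_nonneg (hφ0 _)]
    exact hφb _
  rw [integral_eq_zero_iff_of_nonneg hφ0 hφi] at h0
  have hψ0 : LinearMap.ker ψ ≠ ⊤ := by
    intro h
    apply hw0
    rw [LinearMap.ker_eq_top] at h
    funext i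
    have h1 := LinearMap.congr_fun h (Pi.single i 1)
    rw [hψ] at h1
    simpa [Pi.single_apply] using h1
  have h1 := hnull' _ hψ0
  rw [measure_eq_zero_iff_ae_notMem] at h1
  have h2 : ∀ᵐ x ∂ν, False := by
    filter_upwards [h0, h1] with x hx hx'
    induction x using Projectivization.ind with
    | h v hv =>
      apply hx'
      change Projectivization.submodule (Projectivization.mk k v hv) ≤ _
      rw [Projectivization.submodule_mk, Submodule.span_singleton_le_iff_mem, LinearMap.mem_ker]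
      rw [hφ v hv] at hx
      have h3 : ‖ψ v‖ / ‖v‖ = 0 := hx
      rw [div_eq_zero_iff] at h3
      rcases h3 with h3 | h3
      · exact norm_eq_zero.1 h3
      · exact absurd (norm_eq_zero.1 h3) hv
  rw [ae_iff] at h2
  apply hν0
  simpa using h2

theorem FURST {k : Type*} [NontriviallyNormedField k] [ProperSpace k] (m : ℕ) (t : GL (Fin m) k)
    (ht : Unb t) (μ : Measure (PS k m)) [IsFiniteMeasure μ] (hμ : Measure.map (act t) μ = μ)
    (S : Set (PS k m)) (hS : MeasurableSet S) (hpos : μ S ≠ 0)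
    (hnull : ∀ F : Submodule k (Fin m → k), F ≠ ⊤ → μ (S ∩ PF F) = 0) : False :=
  furst_core m (Pool.Agent.Helper26.Lin.PT3 m) (Pool.Agent.Helper26.Lin.PT4 m)
    (Pool.Agent.Helper26.Lin.PT6 m) (Pool.Agent.Helper26.Lin.PT7 m) t ht μ hμ S hS hpos hnull

end Pool.Agent.Helper11.Lin
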